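import Mathlib

/-!
# Two processor types suffice for modular real-time trellis automata
-/

namespace Pool.Agent.Results.MP_bd4c56_lc.TwoProcessorTypes

/-- A real-time trellis automaton over the input alphabet `S`.
`Gam` is the finite alphabet `Γ`, `Del` is the finite label set `Δ`, `emb` is the inclusion
`Σ ⊆ Γ`, `acc` is the set `Γ₀ ⊆ Γ`, `lab i j` is the label `T(i,j)` of the node `(i,j)`, and
`g δ` is the transition function of the label `δ`; `none : Option Gam` is the symbol `λ ∉ Γ`. -/
structure TrellisAutomaton (S : Type) where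
  Gam : Type
  Del : Type
  finGam : Finite Gam
  finDel : Finite Del
  emb : S → Gam
  emb_injective : Function.Injective emb
  acc : Set Gam
  lab : ℕ → ℕ → Del
  g : Del → Option Gam → Option Gam → Gam

attribute [instance] TrellisAutomaton.finGam TrellisAutomaton.finDel

variable {S : Type}

/-- `A.out w h i j` is the output of the node `(i,j)` on input `w = a₁ ⋯ aₙ` when this node lies
`h` levels above the input level `n - 1`, i.e. `i + j + h = n - 1`.  On the input level (`h = 0`)
the node `(i,j) = (k-1,n-k)` outputs `g_{T(i,j)}(λ, a_k)`, and `a_k` is the list entry `w[i]`.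
On a lower level (nearer to the root) the left input comes from `(i,j+1)` and the right input
from `(i+1,j)`. -/
def TrellisAutomaton.out (A : TrellisAutomaton S) (w : List S) : ℕ → ℕ → ℕ → A.Gam
  | 0, i, j => A.g (A.lab i j) none ((w[i]?).map A.emb)
  | h + 1, i, j =>
      A.g (A.lab i j) (some (A.out w h i (j + 1))) (some (A.out w h (i + 1) j))

/-- `L(A)`: the nonempty words `w` for which the root `(0,0)`, which lies `|w| - 1` levels above
the input level, outputs an element of `Γ₀`. -/
def TrellisAutomaton.language (A : TrellisAutomaton S) : Set (List S) :=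
  {w | w ≠ [] ∧ A.out w (w.length - 1) 0 0 ∈ A.acc}

/-- `blk p q M k δ i j` (for `i < p ^ k`, `j < q ^ k`) is the `(i,j)` entry of the
`p^k × q^k` array `M^k_δ`, where `M δ a b` (for `a < p`, `b < q`) is the entry `δ_{a,b}` of the
`p × q` array `M^1_δ` : the array `M^{k+1}_δ` arises from `M^1_δ` by replacing each entry
`δ_{a,b}` by the block `M^k_{δ_{a,b}}`  (and `M^0_δ` is the `1 × 1` array `δ`). -/
def blk {X : Type} (p q : ℕ) (M : X → ℕ → ℕ → X) : ℕ → X → ℕ → ℕ → X
  | 0, d, _, _ => d
  | k + 1, d, i, j => blk p q M k (M d (i / p ^ k) (j / q ^ k)) (i % p ^ k) (j % q ^ k)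

/-- The automaton is modular (an MRTSTA): there are `p, q ≥ 2`, arrays `M^1_δ` (`δ ∈ Δ`) of size
`p × q` over `Δ` and a label `δ⁰` with `(M^1_{δ⁰})_{0,0} = δ⁰` such that `T(i,j)` is the `(i,j)`
entry of `M^k_{δ⁰}` for all large `k`. -/
def TrellisAutomaton.IsModular (A : TrellisAutomaton S) : Prop :=
  ∃ (p q : ℕ) (M : A.Del → ℕ → ℕ → A.Del) (d0 : A.Del),
    2 ≤ p ∧ 2 ≤ q ∧ M d0 0 0 = d0 ∧
      ∀ i j, ∃ k0, ∀ k, k0 ≤ k → A.lab i j = blk p q M k d0 i j

/-- The number of types of processors: the number of distinct functions among the `g_δ`. -/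
noncomputable def TrellisAutomaton.numTypes (A : TrellisAutomaton S) : ℕ :=
  (Set.range A.g).ncard

/-! ### Substitutive labellings -/

/-- `T` is a fixed point of the substitution `M`. -/
def IsSubst {X : Type} (p q : ℕ) (M : X → ℕ → ℕ → X) (T : ℕ → ℕ → X) : Prop :=
  ∀ i j a b, a < p → b < q → T (p * i + a) (q * j + b) = M (T i j) a b

theorem blk_bottom {X : Type} {p q : ℕ} (hp : 0 < p) (hq : 0 < q) (M : X → ℕ → ℕ → X) :
    ∀ k d i j a b, i < p ^ k → j < q ^ k → a < p → b < q →
      blk p q M (k + 1) d (p * i + a) (q * j + b) = M (blk p q M k d i j) a b := by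
  intro k
  induction k with
  | zero =>
    intro d i j a b hi hj ha hb
    simp at hi hj
    subst hi; subst hj
    simp [blk]
  | succ k ih =>
    intro d i j a b hi hj ha hb
    rw [blk]
    have h1 : (p * i + a) / p ^ (k + 1) = i / p ^ k := by
      rw [pow_succ', ← Nat.div_div_eq_div_mul, Nat.mul_add_div hp, Nat.div_eq_of_lt ha, add_zero]
    have h2 : (q * j + b) / q ^ (k + 1) = j / q ^ k := by
      rw [pow_succ', ← Nat.div_div_eq_div_mul, Nat.mul_add_div hq, Nat.div_eq_of_lt hb, add_zero]
    have h3 : (p * i + a) % p ^ (k + 1) = p * (i % p ^ k) + a := by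
      rw [pow_succ', Nat.mod_mul, Nat.mul_add_mod, Nat.mod_eq_of_lt ha, Nat.mul_add_div hp,
        Nat.div_eq_of_lt ha, add_zero, add_comm]
    have h4 : (q * j + b) % q ^ (k + 1) = q * (j % q ^ k) + b := by
      rw [pow_succ', Nat.mod_mul, Nat.mul_add_mod, Nat.mod_eq_of_lt hb, Nat.mul_add_div hq,
        Nat.div_eq_of_lt hb, add_zero, add_comm]
    rw [h1, h2, h3, h4, ih _ _ _ _ _ (Nat.mod_lt _ (pow_pos hp k)) (Nat.mod_lt _ (pow_pos hq k))
      ha hb, ← blk]

theorem IsSubst.block {X : Type} {p q : ℕ} (hp : 0 < p) (hq : 0 < q) {M : X → ℕ → ℕ → X}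
    {T : ℕ → ℕ → X} (hT : IsSubst p q M T) :
    ∀ k I J x y, x < p ^ k → y < q ^ k →
      T (p ^ k * I + x) (q ^ k * J + y) = blk p q M k (T I J) x y := by
  intro k
  induction k with
  | zero =>
    intro I J x y hx hy
    simp at hx hy
    subst hx; subst hy
    simp [blk]
  | succ k ih =>
    intro I J x y hx hy
    have h1 : p ^ (k + 1) * I + x = p ^ k * (p * I + x / p ^ k) + x % p ^ k := by
      have := Nat.div_add_mod x (p ^ k)
      conv_lhs => rw [← this]
      ring
    have h2 : q ^ (k + 1) * J + y = q ^ k * (q * J + y / q ^ k) + y % q ^ k := by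
      have := Nat.div_add_mod y (q ^ k)
      conv_lhs => rw [← this]
      ring
    have hx' : x / p ^ k < p := by
      rw [Nat.div_lt_iff_lt_mul (pow_pos hp k)]
      rwa [pow_succ'] at hx
    have hy' : y / q ^ k < q := by
      rw [Nat.div_lt_iff_lt_mul (pow_pos hq k)]
      rwa [pow_succ'] at hy
    rw [h1, h2, ih _ _ _ _ (Nat.mod_lt _ (pow_pos hp k)) (Nat.mod_lt _ (pow_pos hq k)),
      hT _ _ _ _ hx' hy', ← blk]

/-- In a modular automaton the labelling is a fixed point of the substitution. -/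
theorem isSubst_of_blk {X : Type} {p q : ℕ} (hp : 2 ≤ p) (hq : 2 ≤ q) {M : X → ℕ → ℕ → X}
    {T : ℕ → ℕ → X} {d0 : X}
    (h : ∀ i j, ∃ k0, ∀ k, k0 ≤ k → T i j = blk p q M k d0 i j) : IsSubst p q M T := by
  intro i j a b ha hb
  obtain ⟨k1, h1⟩ := h i j
  obtain ⟨k2, h2⟩ := h (p * i + a) (q * j + b)
  set k := k1 + k2 + i + j with hk
  have hi : i < p ^ k := lt_of_lt_of_le (Nat.lt_pow_self (by omega : 1 < p))
    (Nat.pow_le_pow_right (by omega) (by omega))
  have hj : j < q ^ k := lt_of_lt_of_le (Nat.lt_pow_self (by omega : 1 < q))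
    (Nat.pow_le_pow_right (by omega) (by omega))
  rw [h1 k (by omega), h2 (k + 1) (by omega),
    blk_bottom (by omega) (by omega) M k d0 i j a b hi hj ha hb]

/-- Conversely, a fixed point of a substitution is read off from the blocks. -/
theorem blk_of_isSubst {X : Type} {p q : ℕ} (hp : 2 ≤ p) (hq : 2 ≤ q) {M : X → ℕ → ℕ → X}
    {T : ℕ → ℕ → X} (hT : IsSubst p q M T) :
    M (T 0 0) 0 0 = T 0 0 ∧
      ∀ i j, ∃ k0, ∀ k, k0 ≤ k → T i j = blk p q M k (T 0 0) i j := by
  constructor
  · have := hT 0 0 0 0 (by omega) (by omega)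
    simpa using this.symm
  · intro i j
    refine ⟨i + j, fun k hk => ?_⟩
    have hi : i < p ^ k := lt_of_lt_of_le (Nat.lt_pow_self (by omega : 1 < p))
      (Nat.pow_le_pow_right (by omega) (by omega))
    have hj : j < q ^ k := lt_of_lt_of_le (Nat.lt_pow_self (by omega : 1 < q))
      (Nat.pow_le_pow_right (by omega) (by omega))
    have := hT.block (by omega) (by omega) k 0 0 i j hi hj
    simpa using this

/-! ### The coding lemma -/

section Coding

variable {X : Type} (T : ℕ → ℕ → X)

/-- The labelling shifted by one, with `none` outside. -/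
def shiftOne (n m : ℕ) : Option X :=
  if n = 0 ∨ m = 0 then none else some (T (n - 1) (m - 1))

theorem shiftOne_succ (n m : ℕ) : shiftOne T (n + 1) (m + 1) = some (T n m) := by
  simp [shiftOne]

theorem shiftOne_rec {p q : ℕ} (hp : 0 < p) (hq : 0 < q) {M : X → ℕ → ℕ → X}
    (hT : IsSubst p q M T) (n m : ℕ) :
    shiftOne T n m = (shiftOne T ((n + p - 1) / p) ((m + q - 1) / q)).map
      (fun d => M d ((n + p - 1) % p) ((m + q - 1) % q)) := by
  rcases Nat.eq_zero_or_pos n with rfl | hn
  · have : (0 + p - 1) / p = 0 := Nat.div_eq_of_lt (by omega)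
    rw [this]
    simp [shiftOne]
  rcases Nat.eq_zero_or_pos m with rfl | hm
  · have : (0 + q - 1) / q = 0 := Nat.div_eq_of_lt (by omega)
    rw [this]
    simp [shiftOne]
  obtain ⟨n, rfl⟩ : ∃ n', n = n' + 1 := ⟨n - 1, by omega⟩
  obtain ⟨m, rfl⟩ : ∃ m', m = m' + 1 := ⟨m - 1, by omega⟩
  have e1 : n + 1 + p - 1 = n + p := by omega
  have e2 : m + 1 + q - 1 = m + q := by omega
  rw [e1, e2, Nat.add_div_right _ hp, Nat.add_div_right _ hq, shiftOne_succ, shiftOne_succ,
    Nat.add_mod_right, Nat.add_mod_right]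
  simp only [Option.map_some, Option.some.injEq]
  rw [← hT _ _ _ _ (Nat.mod_lt _ hp) (Nat.mod_lt _ hq), Nat.div_add_mod, Nat.div_add_mod]

/-- Labels of the recoded labelling: a `3 × 3` window of labels of blocks, and the position inside
the central block. -/
abbrev Lab (X : Type) (p q : ℕ) : Type := (Fin 3 → Fin 3 → Option X) × Fin p × Fin q

variable {p q : ℕ}

/-- The recoded labelling. -/
def recode (hp : 0 < p) (hq : 0 < q) (i j : ℕ) : Lab X p q :=
  (fun u v => shiftOne T (i / p + u) (j / q + v), ⟨i % p, Nat.mod_lt _ hp⟩, ⟨j % q, Nat.mod_lt _ hq⟩)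

/-- The substitution of the recoded labelling. -/
def recodeSubst (hp : 0 < p) (hq : 0 < q) (M : X → ℕ → ℕ → X) (d : Lab X p q) (a b : ℕ) :
    Lab X p q :=
  (fun u v => (d.1 (Fin.ofNat 3 ((d.2.1 + u + p - 1) / p)) (Fin.ofNat 3 ((d.2.2 + v + q - 1) / q))).map
      (fun e => M e ((d.2.1 + u + p - 1) % p) ((d.2.2 + v + q - 1) % q)),
    ⟨a % p, Nat.mod_lt _ hp⟩, ⟨b % q, Nat.mod_lt _ hq⟩)

theorem recode_window (hp : 0 < p) (hq : 0 < q) (i j : ℕ) {n m : ℕ} (hn : n < 3) (hm : m < 3) :
    (recode T hp hq i j).1 (Fin.ofNat 3 n) (Fin.ofNat 3 m) = shiftOne T (i / p + n) (j / q + m) := by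
  simp [recode, Nat.mod_eq_of_lt hn, Nat.mod_eq_of_lt hm]

/-- Labels near `(i,j)` are read off from the recoded label of `(i,j)`. -/
theorem read_off (hp : 0 < p) (hq : 0 < q) {M : X → ℕ → ℕ → X}
    (hT : IsSubst p q M T) (i j n m : ℕ) (hn : i % p + n < 3 * p) (hm : j % q + m < 3 * q)
    (n' m' : ℕ) (hn' : n' + p = i + n + 1) (hm' : m' + q = j + m + 1) :
    shiftOne T n' m' = ((recode T hp hq i j).1 (Fin.ofNat 3 ((i % p + n) / p))
      (Fin.ofNat 3 ((j % q + m) / q))).map
        (fun e => M e ((i % p + n) % p) ((j % q + m) % q)) := by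
  rw [shiftOne_rec T hp hq hT n' m', recode_window T hp hq i j
    ((Nat.div_lt_iff_lt_mul hp).2 hn) ((Nat.div_lt_iff_lt_mul hq).2 hm)]
  have e1 : n' + p - 1 = i + n := by omega
  have e2 : m' + q - 1 = j + m := by omega
  have e3 : (i + n) / p = i / p + (i % p + n) / p := by
    conv_lhs => rw [← Nat.div_add_mod i p, add_assoc, Nat.mul_add_div hp]
  have e4 : (j + m) / q = j / q + (j % q + m) / q := by
    conv_lhs => rw [← Nat.div_add_mod j q, add_assoc, Nat.mul_add_div hq]
  have e5 : (i + n) % p = (i % p + n) % p := by simp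
  have e6 : (j + m) % q = (j % q + m) % q := by simp
  rw [e1, e2, e3, e4, e5, e6]

theorem recode_isSubst (hp : 0 < p) (hq : 0 < q) {M : X → ℕ → ℕ → X}
    (hT : IsSubst p q M T) :
    IsSubst p q (recodeSubst hp hq M) (recode T hp hq) := by
  intro i j a b ha hb
  have h1 : (p * i + a) / p = i := by
    rw [Nat.mul_add_div hp, Nat.div_eq_of_lt ha, add_zero]
  have h2 : (q * j + b) / q = j := by
    rw [Nat.mul_add_div hq, Nat.div_eq_of_lt hb, add_zero]
  have h3 : (p * i + a) % p = a % p := by simp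
  have h4 : (q * j + b) % q = b % q := by simp
  refine Prod.ext ?_ (Prod.ext ?_ ?_)
  · funext u v
    have hu := u.2
    have hv := v.2
    have hi := Nat.mod_lt i hp
    have hj := Nat.mod_lt j hq
    simp only [recode, recodeSubst, h1, h2]
    have key := read_off T hp hq hT i j (u + p - 1) (v + q - 1) (by omega) (by omega)
      (i + u) (j + v) (by omega) (by omega)
    rw [key]
    have e1 : i % p + (↑u + p - 1) = i % p + ↑u + p - 1 := by omega
    have e2 : j % q + (↑v + q - 1) = j % q + ↑v + q - 1 := by omega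
    rw [e1, e2]
    rfl
  · simp [recode, recodeSubst]
  · simp [recode, recodeSubst]

/-- The bit of a recoded label. -/
def bit (P Q : ℕ) (code : Lab X p q → ℕ → Bool) (d : Lab X p q) : Bool :=
  if (d.2.2 : ℕ) % Q = 0 then true
  else if (d.2.1 : ℕ) % P = 0 then
    (if (d.2.2 : ℕ) % Q = 1 then true
      else code (d.1, d.2.1, ⟨(d.2.2 : ℕ) - (d.2.2 : ℕ) % Q,
        lt_of_le_of_lt (Nat.sub_le _ _) d.2.2.2⟩) ((d.2.2 : ℕ) % Q - 2))
  else false

variable {P Q : ℕ} {code : Lab X p q → ℕ → Bool}

theorem bit_corner (hp : 0 < p) (hq : 0 < q) (hP : 2 ≤ P) (hQ : 2 ≤ Q) (hPp : P ∣ p) (hQq : Q ∣ q)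
    (i j : ℕ) :
    (bit P Q code (recode T hp hq i j) = true ∧ bit P Q code (recode T hp hq (i + 1) j) = true ∧
      bit P Q code (recode T hp hq i (j + 1)) = true) ↔ (i % P = 0 ∧ j % Q = 0) := by
  have m1 : ∀ n, n % p % P = n % P := fun n => Nat.mod_mod_of_dvd n hPp
  have m2 : ∀ n, n % q % Q = n % Q := fun n => Nat.mod_mod_of_dvd n hQq
  constructor
  · rintro ⟨h1, h2, h3⟩
    have hj : j % Q = 0 := by
      by_contra hj
      simp only [bit, recode, m1, m2, hj, if_false] at h1 h2
      have a1 : i % P = 0 := by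
        by_contra hc
        simp [hc] at h1
      have a2 : (i + 1) % P = 0 := by
        by_contra hc
        simp [hc] at h2
      have b1 := (Nat.dvd_iff_mod_eq_zero).2 a1
      have b2 := (Nat.dvd_iff_mod_eq_zero).2 a2
      have b3 : P ∣ 1 := (Nat.dvd_add_right b1).1 b2
      have := Nat.le_of_dvd one_pos b3
      omega
    refine ⟨?_, hj⟩
    have hj1 : (j + 1) % Q = 1 := by
      rw [Nat.add_mod, hj, zero_add, Nat.mod_mod, Nat.mod_eq_of_lt (by omega)]
    by_contra hc
    simp only [bit, recode, m1, m2, hj1, hc] at h3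
    simp at h3
  · rintro ⟨hi, hj⟩
    have hj1 : (j + 1) % Q = 1 := by
      rw [Nat.add_mod, hj, zero_add, Nat.mod_mod, Nat.mod_eq_of_lt (by omega)]
    refine ⟨?_, ?_, ?_⟩
    · simp [bit, recode, m2, hj]
    · simp [bit, recode, m2, hj]
    · simp only [bit, recode, m1, m2, hj1, hi]
      simp

theorem bit_code (hp : 0 < p) (hq : 0 < q) (hPp : P ∣ p) (hQq : Q ∣ q)
    (i j t : ℕ) (hi : i % P = 0) (hj : j % Q = 0) (ht : t + 2 < Q) :
    bit P Q code (recode T hp hq i (j + 2 + t)) = code (recode T hp hq i j) t := by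
  have m1 : ∀ n, n % p % P = n % P := fun n => Nat.mod_mod_of_dvd n hPp
  have m2 : ∀ n, n % q % Q = n % Q := fun n => Nat.mod_mod_of_dvd n hQq
  have e1 : (j + 2 + t) % Q = t + 2 := by
    rw [add_assoc, Nat.add_mod, hj, zero_add, Nat.mod_mod, Nat.mod_eq_of_lt (by omega)]
    omega
  -- the residue of `j` modulo `q` is a multiple of `Q`, at most `q - Q`
  have e2 : j % q + Q ≤ q := by
    obtain ⟨r, hr⟩ := hQq
    obtain ⟨s, hs⟩ : Q ∣ j % q := by
      rw [Nat.dvd_iff_mod_eq_zero, m2, hj]
    have h := Nat.mod_lt j hq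
    rw [hs, hr] at h ⊢
    have hsr : s < r := lt_of_mul_lt_mul_left h (Nat.zero_le _)
    calc Q * s + Q = Q * (s + 1) := by ring
      _ ≤ Q * r := Nat.mul_le_mul_left _ hsr
  have e3 : (j + 2 + t) % q = j % q + (t + 2) := by
    rw [add_assoc, Nat.add_mod, Nat.mod_eq_of_lt (show 2 + t < q by omega),
      Nat.mod_eq_of_lt (by omega)]
    omega
  have e4 : (j + 2 + t) / q = j / q := by
    rw [add_assoc]
    conv_lhs => rw [← Nat.div_add_mod j q, add_assoc, Nat.mul_add_div hq,
      Nat.div_eq_of_lt (show j % q + (2 + t) < q by omega), add_zero]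
  have e5 : (j % q + (t + 2)) % Q = t + 2 := by rw [← e3, m2, e1]
  simp only [bit, recode, e3, e4, e5, m1, hi]
  rw [if_neg (by omega), if_pos trivial, if_neg (by omega)]
  congr 1
  simp

/-- The key property: the bits on a triangle of depth `D` determine the labels on it. -/
theorem triangle_determined (hp : 0 < p) (hq : 0 < q) {M : X → ℕ → ℕ → X}
    (hT : IsSubst p q M T) (hP : 2 ≤ P) (hPp : P ∣ p) (hQq : Q ∣ q) {L D : ℕ}
    (hL : L + 2 ≤ Q) (hD : P + 2 * Q ≤ D) (hDp : D ≤ p) (hDq : D ≤ q)
    (hcode : ∀ d d' : Lab X p q, (∀ t, t < L → code d t = code d' t) → d = d')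
    (i j i' j' : ℕ)
    (h : ∀ a b, a + b ≤ D → bit P Q code (recode T hp hq (i + a) (j + b)) =
      bit P Q code (recode T hp hq (i' + a) (j' + b))) :
    ∀ a b, a + b ≤ D → T (i + a) (j + b) = T (i' + a) (j' + b) := by
  -- the first corner
  obtain ⟨a0, ha0, ha0'⟩ : ∃ a0, a0 < P ∧ (i + a0) % P = 0 := by
    refine ⟨(P - i % P) % P, Nat.mod_lt _ (by omega), ?_⟩
    have h1 : i % P < P := Nat.mod_lt _ (by omega)
    rw [Nat.add_mod, Nat.mod_mod, ← Nat.add_mod]
    rw [← Nat.div_add_mod i P]
    have : P * (i / P) + i % P + (P - (P * (i / P) + i % P) % P) = P * (i / P) + P := by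
      rw [Nat.div_add_mod]
      have := Nat.div_add_mod i P
      omega
    rw [this]
    simp
  obtain ⟨b0, hb0, hb0'⟩ : ∃ b0, b0 < Q ∧ (j + b0) % Q = 0 := by
    refine ⟨(Q - j % Q) % Q, Nat.mod_lt _ (by omega), ?_⟩
    have h1 : j % Q < Q := Nat.mod_lt _ (by omega)
    rw [Nat.add_mod, Nat.mod_mod, ← Nat.add_mod]
    rw [← Nat.div_add_mod j Q]
    have : Q * (j / Q) + j % Q + (Q - (Q * (j / Q) + j % Q) % Q) = Q * (j / Q) + Q := by
      rw [Nat.div_add_mod]
      have := Nat.div_add_mod j Q
      omega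
    rw [this]
    simp
  have hc := (bit_corner T (code := code) hp hq hP (by omega) hPp hQq (i + a0) (j + b0)).2
    ⟨ha0', hb0'⟩
  have hc' : (i' + a0) % P = 0 ∧ (j' + b0) % Q = 0 := by
    rw [← bit_corner T (code := code) hp hq hP (by omega) hPp hQq (i' + a0) (j' + b0)]
    refine ⟨?_, ?_, ?_⟩
    · rw [← h a0 b0 (by omega)]; exact hc.1
    · rw [add_assoc, ← h (a0 + 1) b0 (by omega)]; exact hc.2.1
    · rw [add_assoc, ← h a0 (b0 + 1) (by omega)]; exact hc.2.2
  have hd : recode T hp hq (i + a0) (j + b0) = recode T hp hq (i' + a0) (j' + b0) := by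
    apply hcode
    intro t ht
    rw [← bit_code T (P := P) (code := code) hp hq hPp hQq (i + a0) (j + b0) t ha0' hb0' (by omega),
      ← bit_code T (P := P) (code := code) hp hq hPp hQq (i' + a0) (j' + b0) t hc'.1 hc'.2
        (by omega)]
    have := h a0 (b0 + 2 + t) (by omega)
    rw [show j + b0 + 2 + t = j + (b0 + 2 + t) by ring,
      show j' + b0 + 2 + t = j' + (b0 + 2 + t) by ring]
    exact this
  intro a b hab
  have hx : (i + a0) % p = (i' + a0) % p := by
    have := congrArg (fun d => (d.2.1 : ℕ)) hd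
    simpa [recode] using this
  have hy : (j + b0) % q = (j' + b0) % q := by
    have := congrArg (fun d => (d.2.2 : ℕ)) hd
    simpa [recode] using this
  have hxlt := Nat.mod_lt (i + a0) hp
  have hylt := Nat.mod_lt (j + b0) hq
  have r1 := read_off T hp hq hT (i + a0) (j + b0) (a + p - a0) (b + q - b0) (by omega) (by omega)
    (i + a + 1) (j + b + 1) (by omega) (by omega)
  have r2 := read_off T hp hq hT (i' + a0) (j' + b0) (a + p - a0) (b + q - b0) (by omega) (by omega)
    (i' + a + 1) (j' + b + 1) (by omega) (by omega)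
  rw [← hx, ← hy, ← hd, ← r1, shiftOne_succ, shiftOne_succ] at r2
  exact (Option.some.inj r2).symm

/-- The coding lemma with all parameters chosen. -/
theorem exists_coding [Finite X] {p q : ℕ} (hp : 2 ≤ p) (hq : 2 ≤ q) {M : X → ℕ → ℕ → X}
    (hT : IsSubst p q M T) :
    ∃ (Y : Type) (_ : Finite Y) (T' : ℕ → ℕ → Y) (p' q' : ℕ) (M' : Y → ℕ → ℕ → Y)
      (c : Y → Bool) (D : ℕ), 2 ≤ p' ∧ 2 ≤ q' ∧ IsSubst p' q' M' T' ∧ 1 ≤ D ∧
      ∀ i j i' j', (∀ a b, a + b ≤ D → c (T' (i + a) (j + b)) = c (T' (i' + a) (j' + b))) →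
        ∀ a b, a + b ≤ D → T (i + a) (j + b) = T (i' + a) (j' + b) := by
  classical
  -- choice of `l`
  have hlin : ∀ a b : ℕ, ∃ l, a * l + b ≤ 2 ^ l := by
    intro a b
    refine ⟨2 * (2 * a + b + 1), ?_⟩
    set m := 2 * a + b + 1 with hm
    have h1 : m ≤ 2 ^ m := (Nat.lt_two_pow_self).le
    have h2 : m * m ≤ 2 ^ (2 * m) := by
      rw [two_mul, pow_add]
      exact Nat.mul_le_mul h1 h1
    have h3 : a * (2 * m) + b ≤ m * m := by
      have h4 : m * m = (2 * a + b + 1) * m := by rw [← hm]
      have h5 : b ≤ b * m := Nat.le_mul_of_pos_right _ (by omega)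
      rw [h4]
      ring_nf
      ring_nf at h5
      nlinarith
    exact h3.trans h2
  set n := Nat.card X with hn
  obtain ⟨l, hl⟩ := hlin (p * q * q) (9 * (n + 1) + p * q * (p + 1) + 2)
  set K := p + q * l + 1 with hK
  set L := 9 * (n + 1) + p * q * K with hLdef
  have hLq : L + 2 ≤ q ^ l := by
    have h1 : 2 ^ l ≤ q ^ l := Nat.pow_le_pow_left hq l
    have h2 : L + 2 = p * q * q * l + (9 * (n + 1) + p * q * (p + 1) + 2) := by
      rw [hLdef, hK]; ring
    omega
  have hK1 : p + 2 * q ^ l ≤ 2 ^ K := by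
    have h1 : p + 1 ≤ 2 ^ p := Nat.lt_two_pow_self
    have h2 : q ^ l ≤ 2 ^ (q * l) := by
      rw [pow_mul]
      exact Nat.pow_le_pow_left (Nat.lt_two_pow_self).le l
    have h3 : 1 ≤ q ^ l := Nat.one_le_pow _ _ (by omega)
    have h4 : 2 ^ K = 2 * (2 ^ p * 2 ^ (q * l)) := by
      rw [hK, pow_succ, pow_add]; ring
    have h5 : (p + 1) * q ^ l ≤ 2 ^ p * 2 ^ (q * l) := Nat.mul_le_mul h1 h2
    have h6 : p ≤ p * q ^ l := Nat.le_mul_of_pos_right _ (by omega)
    rw [h4]
    nlinarith
  have hKpos : K ≠ 0 := by omega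
  have hp0 : 0 < p ^ K := pow_pos (by omega) K
  have hq0 : 0 < q ^ K := pow_pos (by omega) K
  have hDp : p + 2 * q ^ l ≤ p ^ K := hK1.trans (Nat.pow_le_pow_left hp K)
  have hDq : p + 2 * q ^ l ≤ q ^ K := hK1.trans (Nat.pow_le_pow_left hq K)
  have hTK : IsSubst (p ^ K) (q ^ K) (blk p q M K) T := by
    intro i j a b ha hb
    exact hT.block (by omega) (by omega) K i j a b ha hb
  have hlK : l ≤ K := by
    have : l ≤ q * l := Nat.le_mul_of_pos_left _ (by omega)
    omega
  -- the code
  have hcard : Nat.card (Lab X (p ^ K) (q ^ K)) ≤ Nat.card (Fin L → Bool) := by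
    have : Fintype X := Fintype.ofFinite X
    have e1 : Nat.card (Lab X (p ^ K) (q ^ K)) = ((n + 1) ^ 3) ^ 3 * (p ^ K * q ^ K) := by
      rw [hn]
      simp [Nat.card_eq_fintype_card, Fintype.card_prod]
    have e2 : Nat.card (Fin L → Bool) = 2 ^ L := by
      simp [Nat.card_eq_fintype_card]
    have e3 : 2 ^ L = 2 ^ (9 * (n + 1)) * 2 ^ (p * q * K) := by rw [hLdef, pow_add]
    have e4 : p ^ K * q ^ K = (p * q) ^ K := (mul_pow _ _ _).symm
    have e5 : ((n + 1) ^ 3) ^ 3 = (n + 1) ^ (3 * 3) := (pow_mul _ _ _).symm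
    rw [e1, e2, e3, e4, e5]
    apply Nat.mul_le_mul
    · calc (n + 1) ^ (3 * 3) ≤ (2 ^ (n + 1)) ^ (3 * 3) :=
            Nat.pow_le_pow_left (Nat.lt_two_pow_self).le _
        _ = 2 ^ (9 * (n + 1)) := by rw [← pow_mul]; ring_nf
    · calc (p * q) ^ K ≤ (2 ^ (p * q)) ^ K :=
            Nat.pow_le_pow_left (Nat.lt_two_pow_self).le _
        _ = 2 ^ (p * q * K) := by rw [← pow_mul]
  obtain ⟨f, hf⟩ : ∃ f : Lab X (p ^ K) (q ^ K) → (Fin L → Bool), Function.Injective f := by
    have : Fintype X := Fintype.ofFinite X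
    rw [Nat.card_eq_fintype_card, Nat.card_eq_fintype_card] at hcard
    obtain ⟨e⟩ := Function.Embedding.nonempty_of_card_le hcard
    exact ⟨e, e.injective⟩
  let code : Lab X (p ^ K) (q ^ K) → ℕ → Bool := fun d t => if h : t < L then f d ⟨t, h⟩ else false
  have hcode : ∀ d d' : Lab X (p ^ K) (q ^ K), (∀ t, t < L → code d t = code d' t) → d = d' := by
    intro d d' h
    apply hf
    funext t
    have := h t t.2
    simpa [code] using this
  refine ⟨Lab X (p ^ K) (q ^ K), inferInstance, recode T hp0 hq0, p ^ K, q ^ K,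
    recodeSubst hp0 hq0 (blk p q M K), bit p (q ^ l) code, p + 2 * q ^ l, ?_, ?_, ?_, ?_, ?_⟩
  · exact hp.trans (Nat.le_self_pow hKpos p)
  · exact hq.trans (Nat.le_self_pow hKpos q)
  · exact recode_isSubst T hp0 hq0 hTK
  · omega
  · intro i j i' j' h
    exact triangle_determined T hp0 hq0 hTK hp (dvd_pow_self p hKpos) (pow_dvd_pow q hlK) hLq
      le_rfl hDp hDq hcode i j i' j' h

end Coding

/-! ### The simulation -/

section Simulation

variable (A : TrellisAutomaton S) {Y : Type} (T' : ℕ → ℕ → Y) (c : Y → Bool) (D : ℕ)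

/-- The information carried by a node of the simulating automaton. -/
abbrev Info (S Gam : Type) (D : ℕ) : Type :=
  Fin (D + 1) × (Fin (D + 1) → Fin (D + 1) → Option Bool) × (Fin (D + 1) → Option S) ×
    (Fin (D + 1) → Option Gam)

/-- The intended state of the node `(i,j)`, `h` levels above the input level, on input `w`. -/
def info (w : List S) (h i j : ℕ) : Info S A.Gam D :=
  (⟨min h D, Nat.lt_succ_of_le (min_le_right _ _)⟩,
    fun a b => if (a : ℕ) + b ≤ min h D then some (c (T' (i + a) (j + b))) else none,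
    fun a => if h < D ∧ (a : ℕ) ≤ h then w[i + a]? else none,
    fun a => if D ≤ h then some (A.out w (h - D) (i + a) (j + (D - a))) else none)

variable {A T' c D}

/-- What equality of two intended states means. -/
theorem info_eq {w w' : List S} {h h' i j i' j' : ℕ}
    (H : info A T' c D w h i j = info A T' c D w' h' i' j') :
    min h D = min h' D ∧
    (∀ a b, a + b ≤ min h D → c (T' (i + a) (j + b)) = c (T' (i' + a) (j' + b))) ∧
    (h < D → ∀ a, a ≤ h → w[i + a]? = w'[i' + a]?) ∧
    (D ≤ h → ∀ a, a ≤ D →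
      A.out w (h - D) (i + a) (j + (D - a)) = A.out w' (h' - D) (i' + a) (j' + (D - a))) := by
  have h0 : min h D = min h' D := by
    have := congrArg (fun z => (z.1 : ℕ)) H
    simpa [info] using this
  refine ⟨h0, ?_, ?_, ?_⟩
  · intro a b hab
    have := congrFun (congrFun (congrArg (fun z => z.2.1) H) ⟨a, by omega⟩) ⟨b, by omega⟩
    simp only [info] at this
    rw [if_pos hab, if_pos (by omega)] at this
    exact Option.some.inj this
  · intro hD a ha
    have := congrFun (congrArg (fun z => z.2.2.1) H) ⟨a, by omega⟩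
    simp only [info] at this
    rw [if_pos ⟨hD, ha⟩, if_pos ⟨by omega, by omega⟩] at this
    exact this
  · intro hD a ha
    have := congrFun (congrArg (fun z => z.2.2.2) H) ⟨a, by omega⟩
    simp only [info] at this
    rw [if_pos hD, if_pos (by omega)] at this
    exact Option.some.inj this

/-- A criterion for equality of two intended states. -/
theorem info_ext {w w' : List S} {h h' i j i' j' : ℕ}
    (h0 : min h D = min h' D)
    (h1 : ∀ a b, a + b ≤ min h D → c (T' (i + a) (j + b)) = c (T' (i' + a) (j' + b)))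
    (h2 : h < D → ∀ a, a ≤ h → w[i + a]? = w'[i' + a]?)
    (h3 : D ≤ h → ∀ a, a ≤ D →
      A.out w (h - D) (i + a) (j + (D - a)) = A.out w' (h' - D) (i' + a) (j' + (D - a))) :
    info A T' c D w h i j = info A T' c D w' h' i' j' := by
  refine Prod.ext ?_ (Prod.ext ?_ (Prod.ext ?_ ?_))
  · simpa [info] using h0
  · funext a b
    simp only [info, ← h0]
    split_ifs with hab
    · rw [h1 a b hab]
    · rfl
  · funext a
    simp only [info]
    by_cases hD : h < D
    · obtain rfl : h' = h := by omega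
      split_ifs with ha
      · exact h2 hD a ha.2
      · rfl
    · rw [if_neg (by omega), if_neg (by omega)]
  · funext a
    simp only [info]
    by_cases hD : D ≤ h
    · rw [if_pos hD, if_pos (by omega), h3 hD a (by omega)]
    · rw [if_neg hD, if_neg (by omega)]

theorem info_base (hD : 0 < D) {w w' : List S} {i j i' j' : ℕ}
    (hb : c (T' i j) = c (T' i' j')) (hw : w[i]? = w'[i']?) :
    info A T' c D w 0 i j = info A T' c D w' 0 i' j' := by
  apply info_ext
  · rfl
  · intro a b hab
    obtain ⟨rfl, rfl⟩ : a = 0 ∧ b = 0 := by omega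
    exact hb
  · intro _ a ha
    obtain rfl : a = 0 := by omega
    exact hw
  · intro h; omega

theorem info_step
    (hT : ∀ i j i' j', (∀ a b, a + b ≤ D → c (T' (i + a) (j + b)) = c (T' (i' + a) (j' + b))) →
        ∀ a b, a + b ≤ D → A.lab (i + a) (j + b) = A.lab (i' + a) (j' + b))
    {w w' : List S} {h h' i j i' j' : ℕ}
    (hb : c (T' i j) = c (T' i' j'))
    (hl : info A T' c D w h i (j + 1) = info A T' c D w' h' i' (j' + 1))
    (hr : info A T' c D w h (i + 1) j = info A T' c D w' h' (i' + 1) j') :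
    info A T' c D w (h + 1) i j = info A T' c D w' (h' + 1) i' j' := by
  obtain ⟨l0, l1, l2, l3⟩ := info_eq hl
  obtain ⟨r0, r1, r2, r3⟩ := info_eq hr
  have k1 : ∀ a b, a + b ≤ min (h + 1) D →
      c (T' (i + a) (j + b)) = c (T' (i' + a) (j' + b)) := by
    intro a b hab
    rcases Nat.eq_zero_or_pos b with rfl | hb0
    · rcases Nat.eq_zero_or_pos a with rfl | ha0
      · exact hb
      · obtain ⟨a, rfl⟩ : ∃ a', a = a' + 1 := ⟨a - 1, by omega⟩
        have := r1 a 0 (by omega)
        rw [show i + (a + 1) = i + 1 + a by ring, show i' + (a + 1) = i' + 1 + a by ring]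
        exact this
    · obtain ⟨b, rfl⟩ : ∃ b', b = b' + 1 := ⟨b - 1, by omega⟩
      have := l1 a b (by omega)
      rw [show j + (b + 1) = j + 1 + b by ring, show j' + (b + 1) = j' + 1 + b by ring]
      exact this
  have k2 : h + 1 ≤ D → ∀ a, a ≤ h + 1 → w[i + a]? = w'[i' + a]? := by
    intro hD1 a ha
    rcases Nat.lt_or_ge h a with hlt | hge
    · obtain rfl : a = h + 1 := by omega
      have := r2 (by omega) h le_rfl
      rw [show i + (h + 1) = i + 1 + h by ring, show i' + (h + 1) = i' + 1 + h by ring]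
      exact this
    · exact l2 (by omega) a hge
  apply info_ext
  · omega
  · exact k1
  · exact fun hD1 => k2 hD1.le
  · intro hD1 a ha
    have hlab : A.lab (i + a) (j + (D - a)) = A.lab (i' + a) (j' + (D - a)) := by
      apply hT i j i' j'
      · intro a b hab
        exact k1 a b (by omega)
      · omega
    rcases Nat.lt_or_ge h D with hlt | hge
    · have e1 : h + 1 - D = 0 := by omega
      have e2 : h' + 1 - D = 0 := by omega
      rw [e1, e2, TrellisAutomaton.out, TrellisAutomaton.out, hlab, k2 (by omega) a (by omega)]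
    · have e1 : h + 1 - D = (h - D) + 1 := by omega
      have e2 : h' + 1 - D = (h' - D) + 1 := by omega
      have f1 := l3 hge a ha
      have f2 := r3 hge a ha
      rw [show j + 1 + (D - a) = j + (D - a) + 1 by ring,
        show j' + 1 + (D - a) = j' + (D - a) + 1 by ring] at f1
      rw [show i + 1 + a = i + a + 1 by ring, show i' + 1 + a = i' + a + 1 by ring] at f2
      rw [e1, e2, TrellisAutomaton.out, TrellisAutomaton.out, hlab, f1, f2]

/-- The intended state of the root determines acceptance. -/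
theorem info_root {w w' : List S} (hw : w ≠ []) (hw' : w' ≠ [])
    (H : info A T' c D w (w.length - 1) 0 0 = info A T' c D w' (w'.length - 1) 0 0)
    (hacc : w ∈ A.language) : w' ∈ A.language := by
  have n1 : 0 < w.length := List.length_pos_iff.2 hw
  have n2 : 0 < w'.length := List.length_pos_iff.2 hw'
  obtain ⟨l0, -, l2, l3⟩ := info_eq H
  rcases Nat.lt_or_ge (w.length - 1) D with hlt | hge
  · have hlen : w'.length = w.length := by omega
    have : w = w' := by
      apply List.ext_getElem?
      intro a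
      rcases Nat.lt_or_ge a w.length with ha | ha
      · have := l2 hlt a (by omega)
        simpa using this
      · rw [List.getElem?_eq_none ha, List.getElem?_eq_none (by omega)]
    rw [← this]
    exact hacc
  · have key : ∀ t, t ≤ D → ∀ a, a ≤ D - t →
        A.out w (w.length - 1 - D + t) a (D - t - a) =
          A.out w' (w'.length - 1 - D + t) a (D - t - a) := by
      intro t
      induction t with
      | zero =>
        intro _ a ha
        have := l3 hge a (by omega)
        simpa using this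
      | succ t ih =>
        intro ht a ha
        have f1 := ih (by omega) a (by omega)
        have f2 := ih (by omega) (a + 1) (by omega)
        rw [show D - t - a = D - (t + 1) - a + 1 by omega] at f1
        rw [show D - t - (a + 1) = D - (t + 1) - a by omega] at f2
        rw [← add_assoc, ← add_assoc, TrellisAutomaton.out, TrellisAutomaton.out, f1, f2]
    refine ⟨hw', ?_⟩
    have := key D le_rfl 0 (by omega)
    rw [show w.length - 1 - D + D = w.length - 1 by omega,
      show w'.length - 1 - D + D = w'.length - 1 by omega, show D - D - 0 = 0 by omega] at this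
    rw [← this]
    exact hacc.2

variable (A T' c D)

/-- The graph of the transition function of the simulating automaton for the bit `b`. -/
def StepRel (b : Bool) (l r : Option (S ⊕ Info S A.Gam D)) (z : S ⊕ Info S A.Gam D) : Prop :=
  (∃ (i j : ℕ) (w : List S) (a : S), w[i]? = some a ∧ l = none ∧ r = some (Sum.inl a) ∧
    z = Sum.inr (info A T' c D w 0 i j) ∧ c (T' i j) = b) ∨
  (∃ (i j h : ℕ) (w : List S), l = some (Sum.inr (info A T' c D w h i (j + 1))) ∧
    r = some (Sum.inr (info A T' c D w h (i + 1) j)) ∧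
    z = Sum.inr (info A T' c D w (h + 1) i j) ∧ c (T' i j) = b)

variable {A T' c D}

theorem StepRel.unique (hD : 1 ≤ D)
    (hT : ∀ i j i' j', (∀ a b, a + b ≤ D → c (T' (i + a) (j + b)) = c (T' (i' + a) (j' + b))) →
        ∀ a b, a + b ≤ D → A.lab (i + a) (j + b) = A.lab (i' + a) (j' + b))
    {b : Bool} {l r : Option (S ⊕ Info S A.Gam D)} {z z' : S ⊕ Info S A.Gam D}
    (h1 : StepRel A T' c D b l r z) (h2 : StepRel A T' c D b l r z') : z = z' := by
  rcases h1 with ⟨i, j, w, a, hw, hl, hr, rfl, hb⟩ | ⟨i, j, h, w, hl, hr, rfl, hb⟩ <;>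
  rcases h2 with ⟨i', j', w', a', hw', hl', hr', rfl, hb'⟩ | ⟨i', j', h', w', hl', hr', rfl, hb'⟩
  · rw [hr] at hr'
    have haa : a = a' := Sum.inl_injective (Option.some.inj hr')
    subst haa
    rw [info_base hD (hb.trans hb'.symm) (hw.trans hw'.symm)]
  · rw [hl] at hl'
    exact absurd hl' (by simp)
  · rw [hl] at hl'
    exact absurd hl' (by simp)
  · rw [hl] at hl'
    rw [hr] at hr'
    rw [info_step hT (hb.trans hb'.symm) (Sum.inr_injective (Option.some.inj hl'))
      (Sum.inr_injective (Option.some.inj hr'))]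

variable (A T' c D)

/-- The simulating automaton. -/
noncomputable def simulate [Finite S] [Finite Y] : TrellisAutomaton S where
  Gam := S ⊕ Info S A.Gam D
  Del := Y
  finGam := inferInstance
  finDel := inferInstance
  emb := Sum.inl
  emb_injective := Sum.inl_injective
  acc := {z | ∃ w : List S, w ∈ A.language ∧
    z = Sum.inr (info A T' c D w (w.length - 1) 0 0)}
  lab := T'
  g := fun d l r => Classical.epsilon (StepRel A T' c D (c d) l r)

variable {A T' c D}

theorem simulate_out [Finite S] [Finite Y] (hD : 1 ≤ D)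
    (hT : ∀ i j i' j', (∀ a b, a + b ≤ D → c (T' (i + a) (j + b)) = c (T' (i' + a) (j' + b))) →
        ∀ a b, a + b ≤ D → A.lab (i + a) (j + b) = A.lab (i' + a) (j' + b))
    (w : List S) : ∀ h i j, i + h < w.length →
      (simulate A T' c D).out w h i j = Sum.inr (info A T' c D w h i j) := by
  intro h
  induction h with
  | zero =>
    intro i j hi
    have hw : w[i]? = some (w[i]'(by omega)) := List.getElem?_eq_getElem (by omega)
    have hz : StepRel A T' c D (c (T' i j)) none (some (Sum.inl (w[i]'(by omega))))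
        (Sum.inr (info A T' c D w 0 i j)) :=
      Or.inl ⟨i, j, w, _, hw, rfl, rfl, rfl, rfl⟩
    have := Classical.epsilon_spec ⟨_, hz⟩
    rw [TrellisAutomaton.out, hw]
    exact (StepRel.unique hD hT this hz)
  | succ h ih =>
    intro i j hi
    have hz : StepRel A T' c D (c (T' i j)) (some (Sum.inr (info A T' c D w h i (j + 1))))
        (some (Sum.inr (info A T' c D w h (i + 1) j))) (Sum.inr (info A T' c D w (h + 1) i j)) :=
      Or.inr ⟨i, j, h, w, rfl, rfl, rfl, rfl⟩
    have := Classical.epsilon_spec ⟨_, hz⟩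
    rw [TrellisAutomaton.out, ih i (j + 1) (by omega), ih (i + 1) j (by omega)]
    exact (StepRel.unique hD hT this hz)

theorem simulate_language [Finite S] [Finite Y] (hD : 1 ≤ D)
    (hT : ∀ i j i' j', (∀ a b, a + b ≤ D → c (T' (i + a) (j + b)) = c (T' (i' + a) (j' + b))) →
        ∀ a b, a + b ≤ D → A.lab (i + a) (j + b) = A.lab (i' + a) (j' + b)) :
    (simulate A T' c D).language = A.language := by
  ext w
  constructor
  · rintro ⟨hw, hacc⟩
    have hpos : 0 < w.length := List.length_pos_iff.2 hw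
    rw [simulate_out hD hT w _ 0 0 (by omega)] at hacc
    obtain ⟨w', hw', he⟩ := hacc
    exact info_root hw'.1 hw (Sum.inr_injective he).symm hw'
  · intro hw
    have hpos : 0 < w.length := List.length_pos_iff.2 hw.1
    refine ⟨hw.1, ?_⟩
    rw [simulate_out hD hT w _ 0 0 (by omega)]
    exact ⟨w, hw, rfl⟩

theorem ncard_range_le_two {V W : Type*} (c : V → Bool) (F : Bool → W) :
    (Set.range fun d => F (c d)).ncard ≤ 2 := by
  have hsub : (Set.range fun d => F (c d)) ⊆ {F true, F false} := by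
    rintro _ ⟨d, rfl⟩
    cases hc : c d <;> simp [hc]
  refine (Set.ncard_le_ncard hsub (Set.toFinite _)).trans ?_
  exact (Set.ncard_insert_le _ _).trans (by rw [Set.ncard_singleton])

theorem simulate_numTypes [Finite S] [Finite Y] : (simulate A T' c D).numTypes ≤ 2 :=
  ncard_range_le_two c
    (fun (b : Bool) (l r : Option (S ⊕ Info S A.Gam D)) =>
      Classical.epsilon (StepRel A T' c D b l r))

end Simulation

/-- Two types of processors suffice: every modular real-time trellis automaton `A` has an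
equivalent modular real-time trellis automaton `B` with at most two types of processors. -/
theorem result {S : Type} [Finite S] (A : TrellisAutomaton S) (hA : A.IsModular) :
    ∃ B : TrellisAutomaton S, B.IsModular ∧ B.language = A.language ∧ B.numTypes ≤ 2 := by
  obtain ⟨p, q, M, d0, hp, hq, -, hlab⟩ := hA
  have hsub : IsSubst p q M A.lab := isSubst_of_blk hp hq hlab
  obtain ⟨Y, hY, T', p', q', M', c, D, hp', hq', hT', hD, hdet⟩ :=
    exists_coding A.lab hp hq hsub
  refine ⟨simulate A T' c D, ?_, simulate_language hD hdet, simulate_numTypes⟩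
  obtain ⟨h0, h1⟩ := blk_of_isSubst hp' hq' hT'
  exact ⟨p', q', M', T' 0 0, hp', hq', h0, h1⟩

end Pool.Agent.Results.MP_bd4c56_lc.TwoProcessorTypes
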